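import Pool.Agent.H.MP_fa2eca_lc.A

set_option autoImplicit false

namespace Pool.Agent.Results.MP_fa2eca_lc.No

open Pool.Agent.H.MP_d04dff_lc Pool.Agent.H.MP_fa2eca_lc Filter

theorem result (U : List Bool →. List Bool)
    (hU : Partrec U ∧ ∀ V : List Bool →. List Bool, Partrec V → ∃ c, Best U V c)
    (W : (ℕ → Bool) → List Bool →. List Bool) (hW : ∀ B, OptO B (W B)) :
    ∃ X A : ℕ → Bool,
      0 < liminf (fun n : ℕ => (((Finset.range n).filter fun i => A i = true).card : ℝ) / n) atTop ∧
      ∀ B : ℕ → Bool, (∀ i, B i = true → A i = true) → {i | B i = true}.Infinite → ∀ c : ℕ,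
        ∀ᶠ n in atTop, K (W B) (pre X n) + c < K U (pre X n) := by
  classical
  obtain ⟨X, y, hy, cv, hX⟩ := complex hU.1
  let r : ℕ → ℕ := fun j => if h : ∃ n, y j n ≠ X n then Nat.find h % 2 else 0
  have hr : ∀ j, r j < 2 := fun j => by
    simp only [r]
    split_ifs <;> omega
  refine ⟨X, fun m => decide (m % 2 = r (m / 2)), ?_, fun B hB hi c => ?_⟩
  · have h1 : ∀ n : ℕ, n / 2 ≤ ((Finset.range n).filter fun m =>
        decide (m % 2 = r (m / 2)) = true).card := fun n => by
      conv_lhs => rw [← Finset.card_range (n / 2)]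
      refine Finset.card_le_card_of_injOn (fun j => 2 * j + r j) (fun j hj => ?_)
        fun j _ k _ e => ?_
      · have := hr j
        simp only [Finset.coe_range, Set.mem_Iio] at hj
        simp only [Finset.coe_filter, Finset.mem_range, decide_eq_true_eq, Set.mem_setOf_eq]
        rw [show (2 * j + r j) / 2 = j by omega]
        omega
      · have := hr j
        have := hr k
        simp only at e
        omega
    refine lt_of_lt_of_le (show (0 : ℝ) < 1 / 4 by norm_num) (le_liminf_of_le
      (isCoboundedUnder_ge_of_le atTop (x := 1) fun n => div_le_one_of_le₀ ?_ (by positivity)) ?_)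
    · exact_mod_cast (Finset.card_filter_le _ _).trans (Finset.card_range n).le
    · filter_upwards [eventually_ge_atTop 2] with n hn
      rw [div_le_div_iff₀ (by norm_num) (by exact_mod_cast (by omega))]
      have := h1 n
      exact_mod_cast (by omega)
  obtain ⟨i, hi2, h1⟩ : ∃ i < 2, ∃ᶠ j in atTop, B (2 * j + i) = true := by
    by_contra c
    push Not at c
    obtain ⟨a, ha⟩ := eventually_atTop.1 ((c 0 (by omega)).and (c 1 one_lt_two))
    obtain ⟨m, h1, h2⟩ := hi.exists_gt (2 * a)
    have h3 := ha (m / 2) (by omega)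
    rcases Nat.mod_two_eq_zero_or_one m with h | h
    · exact h3.1 (by rwa [show 2 * (m / 2) + 0 = m by omega])
    · exact h3.2 (by rwa [show 2 * (m / 2) + 1 = m by omega])
  obtain ⟨d, hd⟩ := short hy cv h1 (fun j hj n hn => by
    have h2 := hB _ hj
    rw [decide_eq_true_eq, show (2 * j + i) / 2 = j by omega] at h2
    refine List.map_congr_left fun m hm => ?_
    by_contra c
    have h : ∃ n, y j n ≠ X n := ⟨m, c⟩
    have h3 := Nat.find_min' h c
    simp only [r, dif_pos h] at h2
    have h4 := hn (Nat.find h / 2) (by simp only [List.mem_range] at hm; omega)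
    rw [show 2 * (Nat.find h / 2) + i = Nat.find h by omega] at h4
    exact Nat.find_spec h h4) (hW B)
  obtain ⟨b, hb⟩ := hU.2 _ Partrec.some
  obtain ⟨e, he⟩ := hU.2 (fun p => (U p).map fun s => s.take (3 * (s.length / 3)))
    (hU.1.map (Primrec.list_take.comp (Primrec.nat_mul.comp (Primrec.const 3)
      (Primrec.nat_div.comp (Primrec.list_length.comp Primrec.snd) (Primrec.const 3)))
      Primrec.snd).to_comp.to₂)
  filter_upwards [eventually_ge_atTop (6 * (c + d + e) + 30)] with n hn
  obtain ⟨q, h2, -⟩ := hb _ (pre X n) (Part.mem_some _)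
  obtain ⟨p, h3, h4⟩ := K_spec h2
  obtain ⟨p', h5, h6⟩ := he p _ (Part.mem_map _ h3)
  rw [pre_len, pre_take X (by omega), show 3 * (n / 3) = 3 * (n / 3 - 1) + 3 by omega] at h5
  have h7 := mt (fun h => hX (n / 3 - 1) p' h h5) not_false
  have h8 := hd n
  omega

end Pool.Agent.Results.MP_fa2eca_lc.No
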